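import Mathlib
import Pool.Agent.H25.MM.W242.IM.Phi

/-!
# Counting eigenvalues by dimension
-/

set_option autoImplicit false

namespace Pool.Agent.W242.IM

open Matrix Finset

noncomputable section

variable {ι κ : Type*} [Fintype ι] [Fintype κ]

/-- squared norm -/
def nsq (x : ι → ℂ) : ℝ := ∑ i, ‖x i‖ ^ 2

theorem nsq_nonneg (x : ι → ℂ) : 0 ≤ nsq x := Finset.sum_nonneg fun _ _ => by positivity

theorem nsq_pos {x : ι → ℂ} (h : x ≠ 0) : 0 < nsq x := by
  obtain ⟨i, hi⟩ : ∃ i, x i ≠ 0 := by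
    by_contra hcon
    push Not at hcon
    exact h (funext hcon)
  refine lt_of_lt_of_le ?_ (Finset.single_le_sum (f := fun i => ‖x i‖ ^ 2)
    (fun _ _ => by positivity) (mem_univ i))
  positivity

/-- the real part of the sesquilinear form -/
def qf (A : Matrix ι ι ℂ) (x : ι → ℂ) : ℝ := (star x ⬝ᵥ (A *ᵥ x)).re

/-- spectral data of a form -/
def SD (Q : (ι → ℂ) → ℝ) (l : ι → ℝ) : Prop :=
  ∃ V : (ι → ℂ) ≃ₗ[ℂ] (ι → ℂ), (∀ x, nsq (V x) = nsq x) ∧
    ∀ x, Q x = ∑ j, l j * ‖V x j‖ ^ 2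

theorem SD.neg {Q : (ι → ℂ) → ℝ} {l : ι → ℝ} (h : SD Q l) :
    SD (fun x => -Q x) (fun j => -l j) := by
  obtain ⟨V, h1, h2⟩ := h
  refine ⟨V, h1, fun x => ?_⟩
  simp only [h2 x, neg_mul, Finset.sum_neg_distrib]

theorem nsq_eq (x : ι → ℂ) : ((nsq x : ℝ) : ℂ) = star x ⬝ᵥ x := by
  unfold nsq dotProduct
  push_cast
  refine Finset.sum_congr rfl fun i _ => ?_
  have h := Complex.normSq_eq_conj_mul_self (z := x i)
  rw [Complex.normSq_eq_norm_sq] at h
  push_cast at h
  rw [Pi.star_apply]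
  exact h

theorem sd_of_hermitian [DecidableEq ι] {A : Matrix ι ι ℂ} (hA : A.IsHermitian) :
    SD (qf A) hA.eigenvalues := by
  have hU1 : star (hA.eigenvectorUnitary : Matrix ι ι ℂ) * (hA.eigenvectorUnitary : Matrix ι ι ℂ) = 1 :=
    Unitary.coe_star_mul_self _
  have hU2 : (hA.eigenvectorUnitary : Matrix ι ι ℂ) * star (hA.eigenvectorUnitary : Matrix ι ι ℂ) = 1 :=
    Unitary.coe_mul_star_self _
  set U : Matrix ι ι ℂ := (hA.eigenvectorUnitary : Matrix ι ι ℂ) with hU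
  have hn : ∀ x, nsq (star U *ᵥ x) = nsq x := by
    intro x
    have h : ((nsq (star U *ᵥ x) : ℝ) : ℂ) = ((nsq x : ℝ) : ℂ) := by
      rw [nsq_eq, nsq_eq, star_mulVec, star_eq_conjTranspose, conjTranspose_conjTranspose,
        ← dotProduct_mulVec, mulVec_mulVec, ← star_eq_conjTranspose, hU2, one_mulVec]
    exact_mod_cast h
  have hsp : A = U * diagonal (fun j => ((hA.eigenvalues j : ℝ) : ℂ)) * star U := by
    have := hA.spectral_theorem
    rw [Unitary.conjStarAlgAut_apply] at this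
    exact this
  refine ⟨LinearEquiv.ofLinearMap (Matrix.mulVecLin (star U)) (Matrix.mulVecLin U) ?_ ?_, hn, ?_⟩
  · refine LinearMap.ext fun x => ?_
    rw [LinearMap.comp_apply, mulVecLin_apply, mulVecLin_apply, mulVec_mulVec, hU1, one_mulVec]
    rfl
  · refine LinearMap.ext fun x => ?_
    rw [LinearMap.comp_apply, mulVecLin_apply, mulVecLin_apply, mulVec_mulVec, hU2, one_mulVec]
    rfl
  · intro x
    show qf A x = ∑ j, hA.eigenvalues j * ‖(star U *ᵥ x) j‖ ^ 2
    have h : star x ⬝ᵥ (A *ᵥ x) = ((∑ j, hA.eigenvalues j * ‖(star U *ᵥ x) j‖ ^ 2 : ℝ) : ℂ) := by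
      conv_lhs => rw [hsp]
      rw [← mulVec_mulVec, ← mulVec_mulVec, dotProduct_mulVec]
      have e1 : star x ᵥ* U = star (star U *ᵥ x) := by
        rw [star_mulVec, star_eq_conjTranspose, conjTranspose_conjTranspose]
      rw [e1]
      unfold dotProduct
      push_cast
      refine Finset.sum_congr rfl fun j _ => ?_
      rw [mulVec_diagonal, Pi.star_apply]
      have e2 : ((‖(star U *ᵥ x) j‖ : ℝ) : ℂ) ^ 2 = star ((star U *ᵥ x) j) * (star U *ᵥ x) j := by
        have := Complex.normSq_eq_conj_mul_self (z := (star U *ᵥ x) j)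
        rw [Complex.normSq_eq_norm_sq] at this
        push_cast at this
        exact this
      rw [e2]
      ring
    unfold qf
    rw [h, Complex.ofReal_re]

/-- a subspace on which the form is at least `μ` has dimension at most the number of
eigenvalues that are at least `μ` -/
theorem count_of_form {Q : (ι → ℂ) → ℝ} {l : ι → ℝ} (h : SD Q l) (μ : ℝ) {E : Type*}
    [AddCommGroup E] [Module ℂ E] [FiniteDimensional ℂ E] (L : E →ₗ[ℂ] (ι → ℂ))
    (hL : ∀ e, e ≠ 0 → 0 < nsq (L e) ∧ μ * nsq (L e) ≤ Q (L e)) :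
    Module.finrank ℂ E ≤ (univ.filter fun j => μ ≤ l j).card := by
  classical
  obtain ⟨V, hV1, hV2⟩ := h
  by_contra hcon
  push Not at hcon
  set T : E →ₗ[ℂ] ({j // μ ≤ l j} → ℂ) :=
    (LinearMap.funLeft ℂ ℂ (fun j : {j // μ ≤ l j} => (j : ι))) ∘ₗ (V : (ι → ℂ) →ₗ[ℂ] (ι → ℂ)) ∘ₗ L
    with hT
  have hcard : Module.finrank ℂ ({j // μ ≤ l j} → ℂ) = (univ.filter fun j => μ ≤ l j).card := by
    rw [Module.finrank_fintype_fun_eq_card, Fintype.card_subtype]
  have hker := LinearMap.ker_ne_bot_of_finrank_lt (f := T) (by rw [hcard]; exact hcon)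
  obtain ⟨e, he, he0⟩ := (Submodule.ne_bot_iff _).mp hker
  rw [LinearMap.mem_ker] at he
  obtain ⟨h1, h2⟩ := hL e he0
  have hz : ∀ j, μ ≤ l j → V (L e) j = 0 := fun j hj => congrFun he ⟨j, hj⟩
  rw [hV2] at h2
  have h3 : nsq (L e) = ∑ j, ‖V (L e) j‖ ^ 2 := (hV1 (L e)).symm
  rw [h3, Finset.mul_sum] at h2
  rw [h3] at h1
  obtain ⟨j, _, hj⟩ := Finset.exists_ne_zero_of_sum_ne_zero h1.ne'
  have hjl : l j < μ := by
    by_contra hc
    push Not at hc
    exact hj (by rw [hz j hc]; simp)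
  have h4 : ∑ j, l j * ‖V (L e) j‖ ^ 2 < ∑ j, μ * ‖V (L e) j‖ ^ 2 := by
    refine Finset.sum_lt_sum (fun i _ => ?_) ⟨j, mem_univ j, ?_⟩
    · by_cases hi : μ ≤ l i
      · rw [hz i hi]
        simp
      · push Not at hi
        exact mul_le_mul_of_nonneg_right hi.le (by positivity)
    · exact mul_lt_mul_of_pos_right hjl (lt_of_le_of_ne (by positivity) (Ne.symm hj))
  linarith

/-- comparison of the numbers of eigenvalues at least `μ` -/
theorem count_le {QA : (ι → ℂ) → ℝ} {lA : ι → ℝ} (hA : SD QA lA) {QB : (κ → ℂ) → ℝ}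
    {lB : κ → ℝ} (hB : SD QB lB) (P : (κ → ℂ) →ₗ[ℂ] (ι → ℂ)) {F : Type*} [AddCommGroup F]
    [Module ℂ F] [FiniteDimensional ℂ F] (R : (κ → ℂ) →ₗ[ℂ] F)
    (hP : ∀ x, R x = 0 → nsq (P x) = nsq x ∧ QA (P x) = QB x) (μ : ℝ) :
    (univ.filter fun j => μ ≤ lB j).card ≤
      (univ.filter fun i => μ ≤ lA i).card + Module.finrank ℂ F := by
  classical
  obtain ⟨V, hV1, hV2⟩ := hB
  set G : ({j // μ ≤ lB j} → ℂ) →ₗ[ℂ] (κ → ℂ) :=
    (V.symm : (κ → ℂ) →ₗ[ℂ] (κ → ℂ)) ∘ₗ (Function.ExtendByZero.linearMap ℂ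
      (fun j : {j // μ ≤ lB j} => (j : κ))) with hG
  have hinj : Function.Injective (fun j : {j // μ ≤ lB j} => (j : κ)) := Subtype.val_injective
  have hVG : ∀ g j (hj : μ ≤ lB j), V (G g) j = g ⟨j, hj⟩ := by
    intro g j hj
    rw [hG]
    simp only [LinearMap.comp_apply, LinearEquiv.coe_coe, LinearEquiv.apply_symm_apply]
    exact hinj.extend_apply g (0 : κ → ℂ) ⟨j, hj⟩
  have hVG0 : ∀ g j, ¬ μ ≤ lB j → V (G g) j = 0 := by
    intro g j hj
    rw [hG]
    simp only [LinearMap.comp_apply, LinearEquiv.coe_coe, LinearEquiv.apply_symm_apply]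
    exact Function.extend_apply' (f := fun j : {j // μ ≤ lB j} => (j : κ)) g (0 : κ → ℂ) j
      (by rintro ⟨a, ha⟩; exact hj (ha ▸ a.2))
  set E := LinearMap.ker (R ∘ₗ G) with hE
  have hdim : (univ.filter fun j => μ ≤ lB j).card ≤ Module.finrank ℂ E + Module.finrank ℂ F := by
    have h1 := LinearMap.finrank_range_add_finrank_ker (R ∘ₗ G)
    have h2 : Module.finrank ℂ (LinearMap.range (R ∘ₗ G)) ≤ Module.finrank ℂ F :=
      Submodule.finrank_le _
    rw [Module.finrank_fintype_fun_eq_card, Fintype.card_subtype] at h1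
    rw [hE]
    omega
  have hmain : Module.finrank ℂ E ≤ (univ.filter fun i => μ ≤ lA i).card := by
    refine count_of_form hA μ (P ∘ₗ G ∘ₗ E.subtype) ?_
    intro e he
    have hR : R (G e) = 0 := by
      have h0 : (e : {j // μ ≤ lB j} → ℂ) ∈ LinearMap.ker (R ∘ₗ G) := e.2
      rw [LinearMap.mem_ker] at h0
      exact h0
    obtain ⟨h1, h2⟩ := hP (G e) hR
    have h3 : (e : {j // μ ≤ lB j} → ℂ) ≠ 0 := fun h => he (Subtype.ext h)
    obtain ⟨⟨j, hj⟩, hj0⟩ : ∃ j, (e : {j // μ ≤ lB j} → ℂ) j ≠ 0 := by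
      by_contra hcon
      push Not at hcon
      exact h3 (funext hcon)
    have h4 : G e ≠ 0 := by
      intro h0
      apply hj0
      rw [← hVG e j hj, h0, map_zero]
      rfl
    show 0 < nsq (P (G e)) ∧ μ * nsq (P (G e)) ≤ QA (P (G e))
    rw [h1, h2]
    refine ⟨nsq_pos h4, ?_⟩
    rw [hV2, ← hV1 (G e)]
    unfold nsq
    rw [Finset.mul_sum]
    refine Finset.sum_le_sum fun i _ => ?_
    by_cases hi : μ ≤ lB i
    · exact mul_le_mul_of_nonneg_right hi (by positivity)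
    · rw [hVG0 e i hi]
      simp
  omega

/-- From counting to sums of monotone functions. -/
theorem hall_sum {α β : Type*} [Fintype α] [Fintype β] (x : α → ℝ) (y : β → ℝ) (r : ℕ)
    (f : ℝ → ℝ) (hf : Monotone f) (hf0 : ∀ t, 0 ≤ f t) (M : ℝ) (hM : ∀ b, y b ≤ M)
    (hc : ∀ μ, (univ.filter fun b => μ ≤ y b).card ≤ (univ.filter fun a => μ ≤ x a).card + r) :
    ∑ b, f (y b) ≤ ∑ a, f (x a) + r * f M := by
  classical
  set t : β → Finset (α ⊕ Fin r) := fun b => univ.filter fun s =>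
    Sum.elim (fun a => y b ≤ x a) (fun _ => True) s with ht
  have hall : ∀ s : Finset β, s.card ≤ (s.biUnion t).card := by
    intro s
    rcases s.eq_empty_or_nonempty with rfl | hs
    · simp
    obtain ⟨b0, hb0, hmin⟩ := Finset.exists_min_image s y hs
    have h1 : s.card ≤ (univ.filter fun b => y b0 ≤ y b).card :=
      Finset.card_le_card fun b hb => by simpa using hmin b hb
    have h2 := hc (y b0)
    have h3 : (univ.filter fun a => y b0 ≤ x a).card + r ≤ (t b0).card := by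
      have h4 : (univ.filter fun a => y b0 ≤ x a).disjSum (univ : Finset (Fin r)) ⊆ t b0 := by
        intro s hs
        rw [Finset.mem_disjSum] at hs
        rw [ht]
        simp only [mem_filter, mem_univ, true_and]
        rcases hs with ⟨a, ha, rfl⟩ | ⟨a, ha, rfl⟩
        · simpa using ha
        · simp
      have h5 := Finset.card_le_card h4
      rw [Finset.card_disjSum, Finset.card_univ, Fintype.card_fin] at h5
      exact h5
    have h6 : (t b0).card ≤ (s.biUnion t).card :=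
      Finset.card_le_card (Finset.subset_biUnion_of_mem t hb0)
    omega
  obtain ⟨g, hg1, hg2⟩ := (Finset.all_card_le_biUnion_card_iff_exists_injective t).mp hall
  set φ : α ⊕ Fin r → ℝ := Sum.elim (fun a => f (x a)) (fun _ => f M) with hφ
  have hφ0 : ∀ s, 0 ≤ φ s := by
    rintro (a | a)
    · exact hf0 _
    · exact hf0 _
  have h1 : ∀ b, f (y b) ≤ φ (g b) := by
    intro b
    have h2 := hg2 b
    rw [ht] at h2
    simp only [mem_filter, mem_univ, true_and] at h2
    rcases hgb : g b with a | a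
    · rw [hgb] at h2
      exact hf (by simpa using h2)
    · exact hf (hM b)
  calc ∑ b, f (y b) ≤ ∑ b, φ (g b) := Finset.sum_le_sum fun b _ => h1 b
    _ = ∑ s ∈ univ.map ⟨g, hg1⟩, φ s := by rw [Finset.sum_map]; rfl
    _ ≤ ∑ s, φ s := Finset.sum_le_sum_of_subset_of_nonneg (Finset.subset_univ _)
        fun s _ _ => hφ0 s
    _ = ∑ a, f (x a) + r * f M := by
        rw [Fintype.sum_sum_type, hφ]
        simp

theorem phi_zero : phi 0 = 0 := phi_eq_zero (by simp)

/-- comparison of the measures -/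
theorem sum_phi_le {QA : (ι → ℂ) → ℝ} {lA : ι → ℝ} (hA : SD QA lA) {QB : (κ → ℂ) → ℝ}
    {lB : κ → ℝ} (hB : SD QB lB) (P : (κ → ℂ) →ₗ[ℂ] (ι → ℂ)) {F : Type*} [AddCommGroup F]
    [Module ℂ F] [FiniteDimensional ℂ F] (R : (κ → ℂ) →ₗ[ℂ] F)
    (hP : ∀ x, R x = 0 → nsq (P x) = nsq x ∧ QA (P x) = QB x) (ρ : ℝ) (hρ : ∀ j, |lB j| ≤ ρ) :
    ∑ j, phi (lB j) ≤ ∑ i, phi (lA i) + 2 * (Module.finrank ℂ F) * phi ρ := by
  classical
  by_cases hemp : Nonempty κ
  swap
  · rw [not_nonempty_iff] at hemp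
    rw [Fintype.sum_empty]
    have h1 : 0 ≤ ∑ i, phi (lA i) := Finset.sum_nonneg fun _ _ => phi_nonneg _
    have h2 := phi_nonneg ρ
    positivity
  obtain ⟨j0⟩ := hemp
  have hρ0 : 0 ≤ ρ := (abs_nonneg _).trans (hρ j0)
  set f : ℝ → ℝ := fun t => phi (max t 0) with hf
  have hfm : Monotone f := by
    intro a b hab
    refine phi_mono ?_
    rw [abs_of_nonneg (le_max_right _ _), abs_of_nonneg (le_max_right _ _)]
    exact max_le_max hab le_rfl
  have hf0 : ∀ t, 0 ≤ f t := fun t => phi_nonneg _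
  have hdec : ∀ t, phi t = f t + f (-t) := by
    intro t
    rw [hf]
    simp only
    rcases le_total 0 t with h | h
    · rw [max_eq_left h, max_eq_right (by linarith : -t ≤ 0), phi_zero, add_zero]
    · rw [max_eq_right h, max_eq_left (by linarith : 0 ≤ -t), phi_zero, zero_add, phi_neg]
  have h1 := hall_sum lA lB (Module.finrank ℂ F) f hfm hf0 ρ (fun b => (le_abs_self _).trans (hρ b))
    (fun μ => count_le hA hB P R hP μ)
  have h2 := hall_sum (fun i => -lA i) (fun j => -lB j) (Module.finrank ℂ F) f hfm hf0 ρ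
    (fun b => (neg_le_abs _).trans (hρ b))
    (fun μ => count_le hA.neg hB.neg P R (fun x hx => ⟨(hP x hx).1, by rw [(hP x hx).2]⟩) μ)
  have h3 : f ρ = phi ρ := by
    rw [hf]
    simp only
    rw [max_eq_left hρ0]
  rw [h3] at h1 h2
  simp_rw [hdec, Finset.sum_add_distrib]
  rw [hdec ρ] at *
  rw [← hdec ρ] at *
  linarith

end

end Pool.Agent.W242.IM
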