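import Mathlib
import Pool.Agent.H25.MM.W242.IM.Phi

/-!
# The height of an interlacing pair, by averaging
-/

set_option autoImplicit false

namespace Pool.Agent.W242.IM

open MeasureTheory Polynomial Filter
open Pool.Agent.H261R2.CM (ez D_norm_ez D_circleAverage D_ez_eq)

noncomputable section

theorem ae_eval_ne (P : ℂ[X]) (hP : P ≠ 0) : ∀ᵐ t : ℝ, P.eval (ez t) ≠ 0 := by
  have h1 : {t : ℝ | P.eval (ez t) = 0} ⊆ ⋃ z ∈ (P.roots.toFinset : Set ℂ), {t : ℝ | ez t = z} := by
    intro t ht
    simp only [Set.mem_iUnion, Set.mem_ofPred_eq]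
    refine ⟨ez t, ?_, rfl⟩
    rw [Finset.mem_coe, Multiset.mem_toFinset, mem_roots hP]
    exact ht
  have h2 : ∀ z : ℂ, {t : ℝ | ez t = z}.Countable := by
    intro z
    by_cases hz : ∃ s : ℝ, ez s = z
    · obtain ⟨s, rfl⟩ := hz
      refine (Set.countable_range fun n : ℤ => s + n).mono ?_
      intro t ht
      simp only [Set.mem_ofPred_eq, ez] at ht
      rw [Complex.exp_eq_exp_iff_exists_int] at ht
      obtain ⟨n, hn⟩ := ht
      refine ⟨n, ?_⟩
      have hne : (2 * (Real.pi : ℂ) * Complex.I) ≠ 0 := Complex.two_pi_I_ne_zero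
      have h3 : (t : ℂ) = s + n := by
        apply mul_left_cancel₀ hne
        rw [hn]
        ring
      simp only []
      exact_mod_cast h3.symm
    · convert Set.countable_empty using 1
      ext t
      simp only [Set.mem_ofPred_eq, Set.mem_empty_iff_false, iff_false]
      exact fun h => hz ⟨t, h⟩
  have h3 : {t : ℝ | P.eval (ez t) = 0}.Countable :=
    (Set.Countable.biUnion (Finset.countable_toSet _) fun z _ => h2 z).mono h1
  exact h3.ae_notMem volume

theorem quad_ne (l : ℝ) : quad l ≠ 0 := by
  intro h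
  have h1 := congrArg (fun p : ℂ[X] => p.coeff 0) h
  simp [quad] at h1

theorem ae_tc_ne (l : ℝ) : ∀ᵐ t : ℝ, tc t ≠ l := by
  filter_upwards [ae_eval_ne _ (quad_ne l)] with t ht h
  apply ht
  rw [quad_eval, h]
  simp

theorem intervalIntegrable_quad (l : ℝ) :
    IntervalIntegrable (fun t => Real.log |tc t - l|) volume 0 1 := by
  have h := intervalIntegrable_mahlerMeasure (quad l)
  have h2 := h.comp_mul_left (c := 2 * Real.pi)
  have hpi : (2 * Real.pi : ℝ) ≠ 0 := by positivity
  rw [zero_div, div_self hpi] at h2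
  have h3 : (fun t => Real.log |tc t - l|) =
      fun t => Real.log ‖(quad l).eval (circleMap 0 1 (2 * Real.pi * t))‖ := by
    ext t
    rw [← norm_quad_eval, D_ez_eq]
  rw [h3]
  exact h2

theorem ae_prod {ι : Type*} [Fintype ι] (l : ι → ℝ) :
    ∀ᵐ t : ℝ, (∏ j, (tc t - l j)) ≠ 0 ∧
      Real.log |∏ j, (tc t - l j)| = ∑ j, Real.log |tc t - l j| := by
  have h : ∀ᵐ t : ℝ, ∀ j, tc t ≠ l j := by
    rw [ae_all_iff]
    exact fun j => ae_tc_ne (l j)
  filter_upwards [h] with t ht
  have h1 : ∀ j, tc t - l j ≠ 0 := fun j => sub_ne_zero.mpr (ht j)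
  refine ⟨Finset.prod_ne_zero_iff.mpr fun j _ => h1 j, ?_⟩
  rw [Finset.abs_prod, Real.log_prod]
  intro j _
  exact abs_ne_zero.mpr (h1 j)

theorem integrable_prod {ι : Type*} [Fintype ι] (l : ι → ℝ) (f : ℝ → ℝ)
    (hf : ∀ᵐ t : ℝ, f t = ∏ j, (tc t - l j)) :
    IntervalIntegrable (fun t => Real.log |f t|) volume 0 1 ∧
      ∫ t in (0:ℝ)..1, Real.log |f t| = ∑ j, phi (l j) := by
  have h1 : ∀ᵐ t : ℝ, Real.log |f t| = ∑ j, Real.log |tc t - l j| := by
    filter_upwards [hf, ae_prod l] with t h2 h3
    rw [h2, h3.2]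
  have h2 : IntervalIntegrable (fun t => ∑ j, Real.log |tc t - l j|) volume 0 1 := by
    have := IntervalIntegrable.sum (μ := volume) (a := (0:ℝ)) (b := 1) Finset.univ
      (f := fun j t => Real.log |tc t - l j|) (fun j _ => intervalIntegrable_quad (l j))
    have he : (fun t => ∑ j, Real.log |tc t - l j|) =
        ∑ j, (fun t => Real.log |tc t - l j|) := by
      ext t
      simp
    rw [he]
    exact this
  constructor
  · refine h2.congr_ae ?_
    exact ae_restrict_of_ae (h1.mono fun t ht => ht.symm)
  · have h3 : ∫ t in (0:ℝ)..1, Real.log |f t| = ∫ t in (0:ℝ)..1, ∑ j, Real.log |tc t - l j| :=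
      intervalIntegral.integral_congr_ae (h1.mono fun t ht _ => ht)
    rw [h3, intervalIntegral.integral_finsetSum (fun j _ => intervalIntegrable_quad (l j))]
    exact Finset.sum_congr rfl fun j _ => integral_phi (l j)

/-- The inner inequality. -/
theorem inner_ge (a b : ℝ) (ha : a ≠ 0) :
    IntervalIntegrable (fun s => Real.log |a - tc s * b|) volume 0 1 ∧
    Real.log (max |a| |b|) - Real.log 2 ≤ ∫ s in (0:ℝ)..1, Real.log |a - tc s * b| := by
  have hl2 : 0 < Real.log 2 := Real.log_pos (by norm_num)
  by_cases hb : b = 0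
  · subst hb
    simp only [mul_zero, sub_zero, abs_zero]
    rw [max_eq_left (abs_nonneg a)]
    refine ⟨intervalIntegrable_const, ?_⟩
    rw [intervalIntegral.integral_const]
    simp
    linarith
  · have h1 : ∀ᵐ s : ℝ, Real.log |a - tc s * b| = Real.log |b| + Real.log |tc s - a / b| := by
      filter_upwards [ae_tc_ne (a / b)] with s hs
      have h2 : |a - tc s * b| = |b| * |tc s - a / b| := by
        rw [← abs_mul, abs_sub_comm]
        congr 1
        field_simp
      rw [h2, Real.log_mul (abs_ne_zero.mpr hb) (abs_ne_zero.mpr (sub_ne_zero.mpr hs))]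
    have h2 : IntervalIntegrable (fun s => Real.log |b| + Real.log |tc s - a / b|) volume 0 1 :=
      intervalIntegrable_const.add (intervalIntegrable_quad _)
    constructor
    · refine h2.congr_ae ?_
      exact ae_restrict_of_ae (h1.mono fun t ht => ht.symm)
    · have h3 : ∫ s in (0:ℝ)..1, Real.log |a - tc s * b| =
          ∫ s in (0:ℝ)..1, (Real.log |b| + Real.log |tc s - a / b|) :=
        intervalIntegral.integral_congr_ae (h1.mono fun t ht _ => ht)
      rw [h3, intervalIntegral.integral_add intervalIntegrable_const (intervalIntegrable_quad _),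
        integral_phi, intervalIntegral.integral_const]
      simp only [sub_zero, one_smul]
      rcases le_total |a| |b| with h | h
      · rw [max_eq_right h]
        have := phi_nonneg (a / b)
        linarith
      · rw [max_eq_left h]
        have h4 := posLog_half_le_phi (a / b)
        have h5 : Real.log (|a / b| / 2) ≤ Real.posLog (|a / b| / 2) := le_max_right _ _
        have h6 : Real.log (|a / b| / 2) = Real.log |a| - Real.log |b| - Real.log 2 := by
          rw [abs_div, Real.log_div (by positivity) (by norm_num),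
            Real.log_div (abs_ne_zero.mpr ha) (abs_ne_zero.mpr hb)]
        linarith

theorem height_abs {ι : Type*} [Fintype ι] (a b : ℝ → ℝ) (ha : Continuous a) (hb : Continuous b)
    (K : ℝ) (h : ∀ c : ℝ, |c| ≤ 2 → ∃ l : ι → ℝ,
      (∀ᵐ t : ℝ, a (tc t) - c * b (tc t) = ∏ j, (tc t - l j)) ∧ ∑ j, phi (l j) ≤ K) :
    IntervalIntegrable (fun t => Real.log (max |a (tc t)| |b (tc t)|)) volume 0 1 ∧
      ∫ t in (0:ℝ)..1, Real.log (max |a (tc t)| |b (tc t)|) ≤ Real.log 2 + K := by
  set f : ℝ → ℝ := fun t => a (tc t) with hf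
  set g : ℝ → ℝ := fun t => b (tc t) with hg
  have hfc : Continuous f := ha.comp continuous_tc
  have hgc : Continuous g := hb.comp continuous_tc
  obtain ⟨M, hM⟩ : ∃ M : ℝ, ∀ t ∈ Set.uIcc (0:ℝ) 1, |f t| + 2 * |g t| ≤ M := by
    obtain ⟨M, hM⟩ := (isCompact_uIcc (a := (0:ℝ)) (b := 1)).bddAbove_image
      (f := fun t => |f t| + 2 * |g t|) (by fun_prop)
    exact ⟨M, fun t ht => hM ⟨t, ht, rfl⟩⟩
  set B : ℝ := Real.log (max M 1) with hB
  have hB0 : 0 ≤ B := Real.log_nonneg (le_max_right _ _)
  have hlogB : ∀ x : ℝ, |x| ≤ M → Real.log |x| ≤ B := by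
    intro x hx
    rcases eq_or_lt_of_le (abs_nonneg x) with h0 | h0
    · rw [← h0, Real.log_zero]
      exact hB0
    · exact Real.log_le_log h0 (hx.trans (le_max_left _ _))
  obtain ⟨l0, hl0, _⟩ := h 0 (by norm_num)
  have hl0' : ∀ᵐ t : ℝ, f t = ∏ j, (tc t - l0 j) := hl0.mono fun t ht => by
    rw [← ht]
    simp [hf]
  have hf0 : ∀ᵐ t : ℝ, f t ≠ 0 := by
    filter_upwards [hl0', ae_prod l0] with t h1 h2
    rw [h1]
    exact h2.1
  have hfint := (integrable_prod l0 f hl0').1
  set F : ℝ → ℝ → ℝ := fun t s => Real.log |f t - tc s * g t| with hF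
  have hFle : ∀ t ∈ Set.uIcc (0:ℝ) 1, ∀ s, F t s ≤ B := by
    intro t ht s
    refine hlogB _ ?_
    have h1 := hM t ht
    have h2 := abs_tc_le s
    have h3 : |f t - tc s * g t| ≤ |f t| + |tc s| * |g t| := by
      have := abs_sub (f t) (tc s * g t)
      rwa [abs_mul] at this
    have h4 : |tc s| * |g t| ≤ 2 * |g t| := mul_le_mul_of_nonneg_right h2 (abs_nonneg _)
    linarith
  have hFabs : ∀ t ∈ Set.uIcc (0:ℝ) 1, ∀ s, |F t s| ≤ 2 * B - F t s := by
    intro t ht s
    have h1 := hFle t ht s
    rw [abs_le]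
    constructor
    · linarith
    · rcases le_total 0 (F t s) with h2 | h2 <;> linarith
  have hFm : Measurable (Function.uncurry F) := by
    have h1 : Continuous fun q : ℝ × ℝ => |f q.1 - tc q.2 * g q.1| := by
      have := continuous_tc
      fun_prop
    exact Real.measurable_log.comp h1.measurable
  have hFt : ∀ s, IntervalIntegrable (fun t => F t s) volume 0 1 ∧
      ∫ t in (0:ℝ)..1, F t s ≤ K ∧ 0 ≤ ∫ t in (0:ℝ)..1, F t s := by
    intro s
    obtain ⟨l, hl, hlK⟩ := h (tc s) (abs_tc_le s)
    obtain ⟨h1, h2⟩ := integrable_prod l (fun t => f t - tc s * g t) hl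
    refine ⟨h1, ?_, ?_⟩
    · rw [h2]
      exact hlK
    · rw [h2]
      exact Finset.sum_nonneg fun j _ => phi_nonneg _
  set ν : Measure ℝ := volume.restrict (Set.Ioc 0 1) with hν
  have hsub : ∀ t ∈ Set.Ioc (0:ℝ) 1, t ∈ Set.uIcc (0:ℝ) 1 := by
    intro t ht
    rw [Set.uIcc_of_le zero_le_one]
    exact ⟨ht.1.le, ht.2⟩
  have hprod : Integrable (Function.uncurry F) (ν.prod ν) := by
    rw [integrable_prod_iff' hFm.aestronglyMeasurable]
    constructor
    · refine Eventually.of_forall fun s => ?_
      have := (hFt s).1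
      rw [intervalIntegrable_iff_integrableOn_Ioc_of_le zero_le_one] at this
      exact this
    · refine Integrable.of_bound (C := 2 * B) ?_ ?_
      · exact (hFm.norm.stronglyMeasurable.integral_prod_left').aestronglyMeasurable
      · refine Eventually.of_forall fun s => ?_
        rw [Real.norm_eq_abs, abs_of_nonneg (integral_nonneg fun t => norm_nonneg _)]
        have h1 := (hFt s).1
        rw [intervalIntegrable_iff_integrableOn_Ioc_of_le zero_le_one] at h1
        have h2 : ∫ t, ‖F t s‖ ∂ν ≤ ∫ t, (2 * B - F t s) ∂ν := by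
          refine integral_mono_ae h1.norm ((integrable_const _).sub h1) ?_
          rw [hν]
          filter_upwards [ae_restrict_mem measurableSet_Ioc] with t ht
          exact hFabs t (hsub t ht) s
        refine h2.trans ?_
        rw [integral_sub (integrable_const _) h1]
        have h3 := (hFt s).2.2
        rw [intervalIntegral.integral_of_le zero_le_one] at h3
        simp only [integral_const, smul_eq_mul]
        have h4 : ν.real Set.univ = 1 := by
          rw [hν]
          simp
        rw [h4]
        linarith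
  have hswap : ∫ t in (0:ℝ)..1, (∫ s in (0:ℝ)..1, F t s) = ∫ s in (0:ℝ)..1, (∫ t in (0:ℝ)..1, F t s) := by
    simp only [intervalIntegral.integral_of_le zero_le_one]
    exact integral_integral_swap hprod
  have hmaxint : IntervalIntegrable (fun t => Real.log (max |f t| |g t|)) volume 0 1 := by
    have hbnd : IntervalIntegrable (fun t => B + abs (Real.log |f t|)) volume 0 1 :=
      intervalIntegrable_const.add hfint.abs
    refine hbnd.mono_fun ?_ ?_
    · exact (Real.measurable_log.comp ((hfc.abs.max hgc.abs).measurable)).aestronglyMeasurable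
    · have h1 : ∀ᵐ t ∂(volume.restrict (Set.uIoc (0:ℝ) 1)), f t ≠ 0 := ae_restrict_of_ae hf0
      filter_upwards [h1, ae_restrict_mem measurableSet_uIoc] with t ht htm
      have htm' : t ∈ Set.uIcc (0:ℝ) 1 := by
        rw [Set.uIoc_of_le zero_le_one] at htm
        exact hsub t htm
      have h2 : 0 < |f t| := abs_pos.mpr ht
      have h3 : Real.log |f t| ≤ Real.log (max |f t| |g t|) :=
        Real.log_le_log h2 (le_max_left _ _)
      have h4 : Real.log (max |f t| |g t|) ≤ B := by
        have h5 := hM t htm'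
        refine Real.log_le_log (lt_of_lt_of_le h2 (le_max_left _ _)) ?_
        refine le_trans ?_ (le_max_left _ _)
        have := abs_nonneg (g t)
        exact max_le (by linarith) (by linarith)
      have h8 : 0 ≤ B + abs (Real.log |f t|) := by positivity
      rw [Real.norm_eq_abs, Real.norm_eq_abs, abs_of_nonneg h8, abs_le]
      have h6 := neg_abs_le (Real.log |f t|)
      have h7 := abs_nonneg (Real.log |f t|)
      constructor <;> linarith
  refine ⟨hmaxint, ?_⟩
  have hFint : IntervalIntegrable (fun t => ∫ s in (0:ℝ)..1, F t s) volume 0 1 := by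
    rw [intervalIntegrable_iff_integrableOn_Ioc_of_le zero_le_one]
    simp only [intervalIntegral.integral_of_le zero_le_one]
    exact hprod.integral_prod_left
  have h1 : ∫ t in (0:ℝ)..1, Real.log (max |f t| |g t|) ≤
      ∫ t in (0:ℝ)..1, (Real.log 2 + ∫ s in (0:ℝ)..1, F t s) := by
    refine intervalIntegral.integral_mono_ae zero_le_one hmaxint
      (intervalIntegrable_const.add hFint) ?_
    filter_upwards [hf0] with t ht
    have := (inner_ge (f t) (g t) ht).2
    linarith
  refine h1.trans ?_
  rw [intervalIntegral.integral_add intervalIntegrable_const hFint, hswap,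
    intervalIntegral.integral_const]
  simp only [sub_zero, one_smul]
  have h2 : ∫ s in (0:ℝ)..1, (∫ t in (0:ℝ)..1, F t s) ≤ ∫ s in (0:ℝ)..1, K := by
    refine intervalIntegral.integral_mono_on zero_le_one ?_ intervalIntegrable_const
      (fun s _ => (hFt s).2.1)
    rw [intervalIntegrable_iff_integrableOn_Ioc_of_le zero_le_one]
    simp only [intervalIntegral.integral_of_le zero_le_one]
    exact hprod.integral_prod_right
  rw [intervalIntegral.integral_const] at h2
  simp only [sub_zero, one_smul] at h2
  linarith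

end

end Pool.Agent.W242.IM
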