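import Mathlib
import Pool.Agent.H25.MM.W242.IM.Pack

/-!
# Bounded degrees and bounded deletion sets
-/

set_option autoImplicit false
set_option linter.unusedSectionVars false

namespace Pool.Agent.W242.IM

open MeasureTheory Polynomial Filter Matrix
open Pool.Agent.H261R2.CM (toC)

noncomputable section

theorem eval_zero_int {p : ℤ[X]} : (toC p).eval 0 = ((p.coeff 0 : ℤ) : ℂ) := by
  unfold toC
  rw [← coeff_zero_eq_eval_zero, coeff_map]
  rfl

theorem diag_int {ι : Type*} [Fintype ι] [DecidableEq ι] {A : Matrix ι ι ℂ}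
    (hI : ∀ U, Itg A U) (i : ι) : ∃ a : ℤ, A i i = (a : ℂ) := by
  obtain ⟨p, hp⟩ := hI {i}
  have h1 : cp A {i} = X - C (A i i) := by
    unfold cp Matrix.charpoly
    have hu : ∀ a : ({i} : Finset ι), a = ⟨i, Finset.mem_singleton_self i⟩ := fun a =>
      Subtype.ext (Finset.mem_singleton.mp a.2)
    have hU : Unique ({i} : Finset ι) := ⟨⟨⟨i, Finset.mem_singleton_self i⟩⟩, hu⟩
    rw [det_eq_elem_of_subsingleton _ (⟨i, Finset.mem_singleton_self i⟩ : ({i} : Finset ι)),
      charmatrix_apply_eq]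
    rfl
  have h2 := congrArg (fun q : ℂ[X] => q.eval 0) hp
  simp only [eval_zero_int, h1, eval_sub, eval_X, eval_C, zero_sub] at h2
  refine ⟨-(p.coeff 0), ?_⟩
  push_cast
  rw [h2, neg_neg]

theorem offdiag_int {ι : Type*} [Fintype ι] [DecidableEq ι] {A : Matrix ι ι ℂ}
    (hA : A.IsHermitian) (hI : ∀ U, Itg A U) (i j : ι) (hij : i ≠ j) (h0 : A i j ≠ 0) :
    1 ≤ ‖A i j‖ ^ 2 := by
  obtain ⟨p, hp⟩ := hI {i, j}
  obtain ⟨a, ha⟩ := diag_int hI i
  obtain ⟨b, hb⟩ := diag_int hI j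
  have hi : i ∈ ({i, j} : Finset ι) := by simp
  have hj : j ∈ ({i, j} : Finset ι) := by simp
  set f : Fin 2 → ({i, j} : Finset ι) := ![⟨i, hi⟩, ⟨j, hj⟩] with hf
  have hbij : Function.Bijective f := by
    constructor
    · intro x y hxy
      fin_cases x <;> fin_cases y <;> simp [hf] at hxy ⊢
      · exact hij hxy
      · exact hij hxy.symm
    · rintro ⟨x, hx⟩
      rcases Finset.mem_insert.mp hx with h | h
      · exact ⟨0, by simp [hf, h]⟩
      · exact ⟨1, by simp [hf, Finset.mem_singleton.mp h]⟩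
  set e := Equiv.ofBijective f hbij with he
  have h1 : cp A {i, j} = ((sm A {i, j}).submatrix e e).charpoly := by
    have := charpoly_reindex e.symm (sm A {i, j})
    rw [reindex_apply, Equiv.symm_symm] at this
    exact this.symm
  have h2 := congrArg (fun q : ℂ[X] => q.eval 0) hp
  simp only [eval_zero_int, h1] at h2
  rw [charpoly_fin_two, det_fin_two] at h2
  have e00 : (sm A {i, j}).submatrix e e 0 0 = A i i := rfl
  have e01 : (sm A {i, j}).submatrix e e 0 1 = A i j := rfl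
  have e10 : (sm A {i, j}).submatrix e e 1 0 = A j i := rfl
  have e11 : (sm A {i, j}).submatrix e e 1 1 = A j j := rfl
  rw [e00, e01, e10, e11] at h2
  simp only [eval_add, eval_sub, eval_pow, eval_X, eval_mul, eval_C] at h2
  have h3 : A i j * A j i = ((‖A i j‖ ^ 2 : ℝ) : ℂ) := by
    have h4 : A j i = star (A i j) := (hA.apply j i).symm
    have h5 := Complex.normSq_eq_conj_mul_self (z := A i j)
    rw [Complex.normSq_eq_norm_sq] at h5
    rw [h5, h4, Complex.star_def]
    ring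
  have h4 : ((‖A i j‖ ^ 2 : ℝ) : ℂ) = (((a * b - p.coeff 0 : ℤ) : ℝ) : ℂ) := by
    push_cast
    rw [h2, ha, hb]
    push_cast at h3
    rw [h3]
    ring
  have h5 : ‖A i j‖ ^ 2 = ((a * b - p.coeff 0 : ℤ) : ℝ) := Complex.ofReal_injective h4
  have h6 : 0 < ‖A i j‖ ^ 2 := by
    have := norm_pos_iff.mpr h0
    positivity
  rw [h5] at h6 ⊢
  have h7 : 0 < a * b - p.coeff 0 := by exact_mod_cast h6
  exact_mod_cast h7

theorem nsq_mulVec_le {ι : Type*} [Fintype ι] [DecidableEq ι] {A : Matrix ι ι ℂ}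
    (hA : A.IsHermitian) (ρ : ℝ) (hρ : ∀ j, |hA.eigenvalues j| ≤ ρ) (x : ι → ℂ) :
    nsq (A *ᵥ x) ≤ ρ ^ 2 * nsq x := by
  have hU1 : star (hA.eigenvectorUnitary : Matrix ι ι ℂ) * (hA.eigenvectorUnitary : Matrix ι ι ℂ) = 1 :=
    Unitary.coe_star_mul_self _
  have hU2 : (hA.eigenvectorUnitary : Matrix ι ι ℂ) * star (hA.eigenvectorUnitary : Matrix ι ι ℂ) = 1 :=
    Unitary.coe_mul_star_self _
  set U : Matrix ι ι ℂ := (hA.eigenvectorUnitary : Matrix ι ι ℂ) with hU
  have hn : ∀ x, nsq (star U *ᵥ x) = nsq x := by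
    intro x
    have h : ((nsq (star U *ᵥ x) : ℝ) : ℂ) = ((nsq x : ℝ) : ℂ) := by
      rw [nsq_eq, nsq_eq, star_mulVec, star_eq_conjTranspose, conjTranspose_conjTranspose,
        ← dotProduct_mulVec, mulVec_mulVec, ← star_eq_conjTranspose, hU2, one_mulVec]
    exact_mod_cast h
  have hsp : A = U * diagonal (fun j => ((hA.eigenvalues j : ℝ) : ℂ)) * star U := by
    have := hA.spectral_theorem
    rw [Unitary.conjStarAlgAut_apply] at this
    exact this
  have h1 : star U *ᵥ (A *ᵥ x) = diagonal (fun j => ((hA.eigenvalues j : ℝ) : ℂ)) *ᵥ (star U *ᵥ x) := by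
    rw [mulVec_mulVec, mulVec_mulVec]
    congr 1
    conv_lhs => rw [hsp]
    rw [← mul_assoc, ← mul_assoc, hU1, one_mul]
  rw [← hn (A *ᵥ x), h1, ← hn x]
  unfold nsq
  rw [Finset.mul_sum]
  refine Finset.sum_le_sum fun j _ => ?_
  rw [mulVec_diagonal, norm_mul, mul_pow, Complex.norm_real, Real.norm_eq_abs]
  refine mul_le_mul_of_nonneg_right ?_ (by positivity)
  exact pow_le_pow_left₀ (abs_nonneg _) (hρ j) 2

/-- The number of nonzero entries in a row. -/
theorem degree_bound {ι : Type*} [Fintype ι] [DecidableEq ι] {A : Matrix ι ι ℂ}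
    (hA : A.IsHermitian) (hI : ∀ U, Itg A U) (b : ℝ) (hb : mp A.charpoly ≤ b) (i : ι) :
    ((Finset.univ.filter fun j => A i j ≠ 0).card : ℝ) ≤ 1 + 4 * Real.exp (2 * b) := by
  classical
  have hρ : ∀ j, |hA.eigenvalues j| ≤ 2 * Real.exp b := by
    intro j
    rcases eq_or_lt_of_le (abs_nonneg (hA.eigenvalues j)) with h0 | h0
    · rw [← h0]
      positivity
    · have h1 : phi (hA.eigenvalues j) ≤ b := by
        refine le_trans ?_ hb
        rw [(mp_charpoly hA).2]
        exact Finset.single_le_sum (f := fun j => phi (hA.eigenvalues j))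
          (fun _ _ => phi_nonneg _) (Finset.mem_univ j)
      have h2 : Real.log (|hA.eigenvalues j| / 2) ≤ b :=
        (le_max_right _ _).trans ((posLog_half_le_phi _).trans h1)
      rw [Real.log_le_iff_le_exp (by positivity)] at h2
      linarith
  have h1 := nsq_mulVec_le hA _ hρ (Pi.single i 1)
  have h2 : nsq (Pi.single i (1 : ℂ)) = 1 := by
    unfold nsq
    rw [Finset.sum_eq_single i]
    · simp
    · intro b _ hb
      simp [hb]
    · simp
  rw [h2, mul_one] at h1
  have h3 : nsq (A *ᵥ Pi.single i 1) = ∑ j, ‖A i j‖ ^ 2 := by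
    unfold nsq
    refine Finset.sum_congr rfl fun j _ => ?_
    rw [mulVec_single_one, Matrix.col_apply, ← hA.apply i j, norm_star]
  rw [h3] at h1
  have h4 : ((Finset.univ.filter fun j => A i j ≠ 0).card : ℝ) ≤ 1 + ∑ j, ‖A i j‖ ^ 2 := by
    have h5 : ((Finset.univ.filter fun j => A i j ≠ 0).card : ℝ) =
        ∑ j, if A i j ≠ 0 then (1:ℝ) else 0 := by
      rw [Finset.sum_boole]
    rw [h5, ← Finset.add_sum_erase Finset.univ (fun j => if A i j ≠ 0 then (1:ℝ) else 0)
      (Finset.mem_univ i), ← Finset.add_sum_erase Finset.univ (fun j => ‖A i j‖ ^ 2)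
      (Finset.mem_univ i)]
    have h6 : (if A i i ≠ 0 then (1:ℝ) else 0) ≤ 1 := by split_ifs <;> norm_num
    have h7 : 0 ≤ ‖A i i‖ ^ 2 := by positivity
    have h8 : ∑ j ∈ Finset.univ.erase i, (if A i j ≠ 0 then (1:ℝ) else 0) ≤
        ∑ j ∈ Finset.univ.erase i, ‖A i j‖ ^ 2 := by
      refine Finset.sum_le_sum fun j hj => ?_
      split_ifs with h9
      · exact offdiag_int hA hI i j (Ne.symm (Finset.ne_of_mem_erase hj)) h9
      · positivity
    linarith
  have h5 : (2 * Real.exp b) ^ 2 = 4 * Real.exp (2 * b) := by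
    rw [mul_pow, ← Real.exp_nat_mul]
    norm_num
  rw [h5] at h1
  linarith

end

end Pool.Agent.W242.IM
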