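import Mathlib
import Pool.Agent.H25.MM.W242.IM.Weights

/-!
# Integer polynomials interlacing a real-rooted polynomial, II
-/

set_option autoImplicit false
set_option linter.unusedSectionVars false

namespace Pool.Agent.W242.IM

open MeasureTheory Polynomial Filter
open Pool.Agent.H261R2.CM

noncomputable section

/-- `p` is monic with only real roots and `q` has at the roots of `p` the sign of `p'` -/
def Interl (p q : ℤ[X]) : Prop :=
  p.Monic ∧ (∀ z : ℂ, (p.map (Int.castRingHom ℂ)).eval z = 0 → z.im = 0) ∧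
    q.natDegree < p.natDegree ∧
    ∀ x : ℝ, (p.map (Int.castRingHom ℝ)).eval x = 0 →
      0 < (q.map (Int.castRingHom ℝ)).eval x * (p.derivative.map (Int.castRingHom ℝ)).eval x

theorem toC_map (p : ℤ[X]) : (p.map (Int.castRingHom ℝ)).map Complex.ofRealHom = toC p := by
  unfold toC
  rw [Polynomial.map_map]
  congr 1

theorem toC_eval_real (p : ℤ[X]) (x : ℝ) :
    (toC p).eval (x : ℂ) = (((p.map (Int.castRingHom ℝ)).eval x : ℝ) : ℂ) := by
  rw [← toC_map, eval_map]
  exact (Polynomial.hom_eval₂ _ (RingHom.id ℝ) Complex.ofRealHom x ▸ by simp)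

theorem interl_data {p q : ℤ[X]} (h : Interl p q) :
    ∃ (n : ℕ) (l w : Fin n → ℝ), (∀ j, 0 ≤ w j) ∧ (∑ j, w j = q.coeff (p.natDegree - 1)) ∧
      (∀ t : ℝ, (p.map (Int.castRingHom ℝ)).eval t = ∏ j, (t - l j)) ∧
      (∀ t : ℝ, (q.map (Int.castRingHom ℝ)).eval t = wt l w t) := by
  classical
  obtain ⟨hm, hreal, hdeg, hpos⟩ := h
  have hmC : (toC p).Monic := hm.map _
  set s : Finset ℂ := (toC p).roots.toFinset with hs
  have hre : ∀ z ∈ s, ((z.re : ℝ) : ℂ) = z := by
    intro z hz
    rw [hs, Multiset.mem_toFinset, mem_roots hmC.ne_zero] at hz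
    exact Complex.ext (by simp) (by simp [hreal z hz])
  have hroot : ∀ z ∈ s, (p.map (Int.castRingHom ℝ)).eval z.re = 0 := by
    intro z hz
    have h1 := hz
    rw [hs, Multiset.mem_toFinset, mem_roots hmC.ne_zero] at h1
    have h2 : (toC p).eval z = 0 := h1
    rw [← hre z hz, toC_eval_real] at h2
    exact Complex.ofReal_eq_zero.mp h2
  have hnodup : (toC p).roots.Nodup := by
    rw [Multiset.nodup_iff_count_le_one]
    intro z
    rw [count_roots]
    by_contra hcon
    push Not at hcon
    rw [one_lt_rootMultiplicity_iff_isRoot hmC.ne_zero] at hcon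
    have hz : z ∈ s := by
      rw [hs, Multiset.mem_toFinset, mem_roots hmC.ne_zero]
      exact hcon.1
    have h1 := hpos z.re (hroot z hz)
    have h2 : (derivative (toC p)).eval z = 0 := hcon.2
    have h3 : derivative (toC p) = toC (derivative p) := by
      unfold toC
      rw [derivative_map]
    rw [h3, ← hre z hz, toC_eval_real] at h2
    rw [Complex.ofReal_eq_zero.mp h2, mul_zero] at h1
    exact lt_irrefl _ h1
  have hprod : toC p = ∏ z ∈ s, (X - C z) := by
    have h1 := (IsAlgClosed.splits (toC p)).eq_prod_roots_of_monic hmC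
    rw [Finset.prod, hs, Multiset.toFinset_val, hnodup.dedup]
    exact h1
  have hcard : s.card = p.natDegree := by
    have h1 := congrArg natDegree hprod
    rw [natDegree_prod_of_monic _ _ (fun z _ => monic_X_sub_C z)] at h1
    simp only [natDegree_X_sub_C, Finset.sum_const, smul_eq_mul, mul_one] at h1
    rw [← h1]
    exact natDegree_map_eq_of_injective (RingHom.injective_int _) p
  set n := s.card with hn
  set e : Fin n ≃ s := s.equivFin.symm with he
  set v : Fin n → ℝ := fun j => (e j : ℂ).re with hv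
  have hvj : ∀ j, ((v j : ℝ) : ℂ) = (e j : ℂ) := fun j => hre _ (e j).2
  have hvinj : Function.Injective v := by
    intro a b hab
    apply e.injective
    apply Subtype.ext
    rw [← hvj a, ← hvj b, hab]
  have hpR : p.map (Int.castRingHom ℝ) = Lagrange.nodal Finset.univ v := by
    apply Polynomial.map_injective Complex.ofRealHom Complex.ofRealHom.injective
    rw [toC_map, hprod]
    unfold Lagrange.nodal
    rw [Polynomial.map_prod]
    rw [← Finset.prod_coe_sort s, ← e.prod_comp]
    refine Finset.prod_congr rfl fun j _ => ?_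
    rw [Polynomial.map_sub, map_X, map_C]
    congr 2
    exact (hvj j).symm
  have hpv : ∀ j, (p.map (Int.castRingHom ℝ)).eval (v j) = 0 := fun j => hroot _ (e j).2
  have hpd : ∀ j, (p.derivative.map (Int.castRingHom ℝ)).eval (v j) =
      (Lagrange.nodal (Finset.univ.erase j) v).eval (v j) := by
    intro j
    rw [← derivative_map, hpR]
    exact Lagrange.eval_nodal_derivative_eval_node_eq (Finset.mem_univ j)
  set w : Fin n → ℝ := fun j => (q.map (Int.castRingHom ℝ)).eval (v j) /
    (p.derivative.map (Int.castRingHom ℝ)).eval (v j) with hw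
  have hpd0 : ∀ j, (p.derivative.map (Int.castRingHom ℝ)).eval (v j) ≠ 0 := by
    intro j h0
    have := hpos (v j) (hpv j)
    rw [h0, mul_zero] at this
    exact lt_irrefl _ this
  have hw0 : ∀ j, 0 ≤ w j := by
    intro j
    have h1 := hpos (v j) (hpv j)
    rw [hw]
    simp only
    rw [div_eq_mul_inv]
    have h2 := hpd0 j
    rcases lt_or_gt_of_ne h2 with h3 | h3
    · have h4 : (q.map (Int.castRingHom ℝ)).eval (v j) ≤ 0 := by nlinarith
      exact mul_nonneg_of_nonpos_of_nonpos h4 (inv_nonpos.mpr h3.le)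
    · have h4 : 0 ≤ (q.map (Int.castRingHom ℝ)).eval (v j) := by nlinarith
      exact mul_nonneg h4 (inv_nonneg.mpr h3.le)
  have hndR : (q.map (Int.castRingHom ℝ)).natDegree = q.natDegree :=
    natDegree_map_eq_of_injective (RingHom.injective_int _) q
  have hn1 : 0 < n := by omega
  have hq : q.map (Int.castRingHom ℝ) =
      ∑ j, C (w j) * Lagrange.nodal (Finset.univ.erase j) v := by
    refine eq_of_degrees_lt_of_eval_index_eq (s := Finset.univ) (v := v) (hvinj.injOn) ?_ ?_ ?_
    · rw [Finset.card_univ, Fintype.card_fin]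
      refine lt_of_le_of_lt degree_le_natDegree ?_
      rw [hndR]
      exact_mod_cast (by omega : q.natDegree < n)
    · rw [Finset.card_univ, Fintype.card_fin]
      refine lt_of_le_of_lt (degree_sum_le _ _) ?_
      rw [Finset.sup_lt_iff (by exact_mod_cast WithBot.bot_lt_coe n)]
      intro j _
      refine lt_of_le_of_lt ((degree_mul_le _ _).trans (add_le_add_left degree_C_le _)) ?_
      rw [zero_add]
      rw [Lagrange.degree_nodal, Finset.card_erase_of_mem (Finset.mem_univ j), Finset.card_univ,
        Fintype.card_fin]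
      exact_mod_cast (by omega : n - 1 < n)
    · intro j _
      rw [eval_finsetSum, Finset.sum_eq_single j]
      · rw [eval_mul, eval_C, ← hpd j, hw]
        simp only
        rw [div_mul_cancel₀ _ (hpd0 j)]
      · intro i _ hij
        rw [eval_mul, Lagrange.eval_nodal_at_node (Finset.mem_erase.mpr ⟨Ne.symm hij, Finset.mem_univ j⟩),
          mul_zero]
      · intro h0
        exact absurd (Finset.mem_univ j) h0
  refine ⟨n, v, w, hw0, ?_, ?_, ?_⟩
  · have h1 := congrArg (fun r : ℝ[X] => r.coeff (n - 1)) hq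
    simp only [coeff_map, finsetSum_coeff, coeff_C_mul] at h1
    have h2 : ∀ j : Fin n, (Lagrange.nodal (Finset.univ.erase j) v).coeff (n - 1) = 1 := by
      intro j
      have h3 := Lagrange.natDegree_nodal (s := Finset.univ.erase j) (v := v)
      rw [Finset.card_erase_of_mem (Finset.mem_univ j), Finset.card_univ, Fintype.card_fin] at h3
      have h4 := (Lagrange.nodal_monic (s := Finset.univ.erase j) (v := v)).coeff_natDegree
      rw [h3] at h4
      exact h4
    simp_rw [h2, mul_one] at h1
    rw [← h1, ← hcard]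
    rfl
  · intro t
    rw [hpR, Lagrange.eval_nodal]
  · intro t
    rw [hq, eval_finsetSum]
    unfold wt
    refine Finset.sum_congr rfl fun j _ => ?_
    rw [eval_mul, eval_C, Lagrange.eval_nodal]

theorem interl_height {p q : ℤ[X]} (h : Interl p q) (L : ℕ) (hL : q.coeff (p.natDegree - 1) ≤ L) :
    hp (toC p) (toC q) ≤ 3 * mp (toC p) + Real.log 2 + 2 * Real.log (2 + 2 * L) := by
  obtain ⟨n, l, w, hw, hsum, h1, h2⟩ := interl_data h
  have h3 := height_weights l w hw (L : ℝ) (by rw [hsum]; exact_mod_cast hL)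
  have h4 : mp (toC p) = ∑ j, phi (l j) := by
    rw [← (integrable_prod l (fun t => ∏ j, (tc t - l j)) (Eventually.of_forall fun _ => rfl)).2]
    unfold mp
    refine intervalIntegral.integral_congr fun t _ => ?_
    show Real.log ‖(toC p).eval ((tc t : ℝ) : ℂ)‖ = Real.log |∏ j, (tc t - l j)|
    rw [toC_eval_real, h1, Complex.norm_real, Real.norm_eq_abs]
  have h5 : hp (toC p) (toC q) =
      ∫ t in (0:ℝ)..1, Real.log (max |∏ j, (tc t - l j)| |wt l w (tc t)|) := by
    unfold hp
    refine intervalIntegral.integral_congr fun t _ => ?_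
    show Real.log (max ‖(toC p).eval ((tc t : ℝ) : ℂ)‖ ‖(toC q).eval ((tc t : ℝ) : ℂ)‖) = _
    rw [toC_eval_real, toC_eval_real, h1, h2, Complex.norm_real, Complex.norm_real,
      Real.norm_eq_abs, Real.norm_eq_abs]
  rw [h5, h4]
  exact h3

theorem interl_gcd {p q : ℤ[X]} (h : Interl p q) :
    q ≠ 0 ∧ ∀ d : ℤ[X], d ∣ p → d ∣ q → mp (toC d) = 0 := by
  obtain ⟨hm, hreal, hdeg, hpos⟩ := h
  have hmC : (toC p).Monic := hm.map _
  have hno : ∀ z : ℂ, (toC p).eval z = 0 → (toC q).eval z ≠ 0 := by
    intro z hz h0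
    have h1 : ((z.re : ℝ) : ℂ) = z := Complex.ext (by simp) (by simp [hreal z hz])
    rw [← h1, toC_eval_real] at hz h0
    have h2 := hpos z.re (Complex.ofReal_eq_zero.mp hz)
    rw [Complex.ofReal_eq_zero.mp h0, zero_mul] at h2
    exact lt_irrefl _ h2
  have hdp : (toC p).natDegree = p.natDegree :=
    natDegree_map_eq_of_injective (RingHom.injective_int _) p
  constructor
  · rintro rfl
    obtain ⟨z, hz⟩ := IsAlgClosed.exists_root (toC p) (by
      rw [degree_eq_natDegree hmC.ne_zero, hdp]
      have : p.natDegree ≠ 0 := Nat.ne_of_gt (Nat.lt_of_le_of_lt (Nat.zero_le _) hdeg)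
      exact_mod_cast this)
    exact hno z hz (by simp [toC])
  · intro d hd1 hd2
    have hd0 : d ≠ 0 := by
      rintro rfl
      exact hm.ne_zero (zero_dvd_iff.mp hd1)
    have hdeg0 : d.natDegree = 0 := by
      by_contra hne
      have h1 : (toC d).natDegree = d.natDegree :=
        natDegree_map_eq_of_injective (RingHom.injective_int _) d
      obtain ⟨z, hz⟩ := IsAlgClosed.exists_root (toC d) (by
        intro h2
        have h9 : (toC d).natDegree = 0 := natDegree_eq_of_degree_eq_some h2
        omega)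
      obtain ⟨a, ha⟩ := hd1
      obtain ⟨b, hb⟩ := hd2
      have h2 : (toC d).eval z = 0 := hz
      refine hno z ?_ ?_
      · rw [ha]
        unfold toC at h2 ⊢
        rw [Polynomial.map_mul, eval_mul, h2, zero_mul]
      · rw [hb]
        unfold toC at h2 ⊢
        rw [Polynomial.map_mul, eval_mul, h2, zero_mul]
    have hu : IsUnit (d.coeff 0) := by
      obtain ⟨a, ha⟩ := hd1
      have h1 : d.leadingCoeff * a.leadingCoeff = 1 := by
        rw [← leadingCoeff_mul, ← ha]
        exact hm
      have h2 : d.leadingCoeff = d.coeff 0 := by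
        unfold leadingCoeff
        rw [hdeg0]
      rw [← h2]
      exact isUnit_iff_exists_inv.mpr ⟨_, h1⟩
    have h3 : ∀ x : ℂ, ‖(toC d).eval x‖ = 1 := by
      intro x
      rw [eq_C_of_natDegree_eq_zero hdeg0]
      unfold toC
      rw [map_C, eval_C]
      rcases Int.isUnit_iff.mp hu with h4 | h4 <;> rw [h4] <;> simp
    unfold mp
    simp_rw [h3, Real.log_one]
    simp

end

end Pool.Agent.W242.IM
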