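import Mathlib
import Pool.Agent.H25.MM.W242.IM.NF
import Pool.Agent.H25.MM.H887R3.LW.MV9

/-!
# Final statements
-/

set_option autoImplicit false
set_option linter.unusedSectionVars false

namespace Pool.Agent.W242.IM

open MeasureTheory Polynomial Filter Matrix NumberField
open Pool.Agent.H261R2.CM

noncomputable section

/-- `z ^ n * p (z + 1/z)` for a polynomial `p` of degree `n` -/
def recP (p : ℂ[X]) : ℂ[X] :=
  ∑ k ∈ Finset.range (p.natDegree + 1), C (p.coeff k) * (X ^ 2 + 1) ^ k * X ^ (p.natDegree - k)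

/-- the Mahler measure of `z ^ n * p (z + 1/z)` -/
def MM (p : ℂ[X]) : ℝ := (recP p).mahlerMeasure

theorem recP_toC (P : ℤ[X]) : recP (toC P) = toC (Rc P.natDegree P) := by
  have h1 : (toC P).natDegree = P.natDegree :=
    natDegree_map_eq_of_injective (RingHom.injective_int _) P
  unfold recP Rc
  rw [h1]
  unfold toC
  rw [Polynomial.map_sum]
  refine Finset.sum_congr rfl fun k _ => ?_
  rw [Polynomial.map_mul, Polynomial.map_mul, Polynomial.map_pow, Polynomial.map_pow,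
    Polynomial.map_add, Polynomial.map_pow, Polynomial.map_one, map_X, map_C, coeff_map]

theorem MM_toC (P : ℤ[X]) (hP : P ≠ 0) : MM (toC P) = Real.exp (mp (toC P)) := by
  unfold MM
  rw [recP_toC, mp_eq_log_m1 _ P le_rfl, Real.exp_log]
  · rfl
  · exact lt_of_lt_of_le one_pos (I1_one_le_m1 (Rc_ne _ _ le_rfl hP))

theorem toC_charpoly_ne {ι : Type*} [Fintype ι] [DecidableEq ι] {A : Matrix ι ι ℂ} {P : ℤ[X]}
    (h : toC P = A.charpoly) : P ≠ 0 := by
  rintro rfl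
  have h1 : (A.charpoly).Monic := charpoly_monic A
  rw [← h] at h1
  exact h1.ne_zero (by simp [toC])

theorem MM_charpoly {ι : Type*} [Fintype ι] [DecidableEq ι] {A : Matrix ι ι ℂ}
    (h : ∃ P : ℤ[X], toC P = A.charpoly) : MM A.charpoly = Real.exp (mp A.charpoly) := by
  obtain ⟨P, hP⟩ := h
  rw [← hP]
  exact MM_toC P (toC_charpoly_ne hP)

theorem MM_alt {x δ : ℝ} (h : x = 0 ∨ δ ≤ x) : Real.exp x = 1 ∨ Real.exp δ ≤ Real.exp x := by
  rcases h with h | h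
  · left
    rw [h, Real.exp_zero]
  · right
    exact Real.exp_le_exp.mpr h

/-- principal submatrices of matrices of blocks -/
def blk {n k : ℕ} (A : Matrix (Fin n × Fin k) (Fin n × Fin k) ℂ) (U : Finset (Fin n)) :
    Matrix (U × Fin k) (U × Fin k) ℂ :=
  A.submatrix (fun x => (x.1.1, x.2)) (fun x => (x.1.1, x.2))

theorem blk_charpoly {n k : ℕ} (A : Matrix (Fin n × Fin k) (Fin n × Fin k) ℂ)
    (U : Finset (Fin n)) : (blk A U).charpoly = cp A (pre Prod.fst U) := by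
  unfold cp
  rw [← charpoly_reindex (preEquiv U) (sm A (pre Prod.fst U))]
  rfl

theorem block_hyp {n k : ℕ} {A : Matrix (Fin n × Fin k) (Fin n × Fin k) ℂ}
    (h : ∀ U : Finset (Fin n), ∃ P : ℤ[X], toC P = (blk A U).charpoly) :
    (∀ b, (pre (Prod.fst : Fin n × Fin k → Fin n) {b}).card ≤ k) ∧
      (∀ U, Itg A (pre Prod.fst U)) ∧ ∃ P : ℤ[X], toC P = A.charpoly := by
  refine ⟨fun b => ?_, fun U => ?_, ?_⟩
  · rw [pre_fst_card, Fintype.card_fin]
  · obtain ⟨P, hP⟩ := h U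
    exact ⟨P, by rw [hP, blk_charpoly]⟩
  · obtain ⟨P, hP⟩ := h Finset.univ
    exact ⟨P, by rw [hP, blk_charpoly, pre_univ, mp_univ]⟩

/-! ### Lehmer's problem -/

theorem fin_chain (k : ℕ) : ∃ μ : ℝ, 1 < μ ∧ ∀ (n : ℕ) (A : Matrix (Fin n) (Fin n) ℂ),
    A.IsHermitian → ∀ (r : ℕ) (c : ℕ → Finset (Fin n)), c 0 = ∅ → c r = Finset.univ →
      (∀ i, i < r → c i ⊆ c (i + 1) ∧ (c (i + 1) \ c i).card ≤ k) →
      (∀ i, i ≤ r → ∃ P : ℤ[X], toC P =
        (A.submatrix (Subtype.val : c i → Fin n) Subtype.val).charpoly) →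
      MM A.charpoly = 1 ∨ μ ≤ MM A.charpoly := by
  obtain ⟨δ, hδ, h⟩ := lehmer_chain k
  refine ⟨Real.exp δ, Real.one_lt_exp_iff.mpr hδ, fun n A hA r c h0 hr hc hI => ?_⟩
  have h1 : ∃ P : ℤ[X], toC P = A.charpoly := by
    obtain ⟨P, hP⟩ := hI r le_rfl
    refine ⟨P, ?_⟩
    rw [hP, ← mp_univ A, ← hr]
    rfl
  rw [MM_charpoly h1]
  exact MM_alt (h (Fin n) A hA r c h0 hr hc hI)

theorem fin_interl (L : ℕ) : ∃ μ : ℝ, 1 < μ ∧ ∀ p q : ℤ[X], Interl p q →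
    q.coeff (p.natDegree - 1) ≤ L → MM (toC p) = 1 ∨ μ ≤ MM (toC p) := by
  obtain ⟨δ, hδ, h⟩ := pair_gap (3 + Real.log 2 + 2 * Real.log (2 + 2 * L))
  refine ⟨Real.exp (min δ 1), Real.one_lt_exp_iff.mpr (lt_min hδ one_pos), fun p q hpq hL => ?_⟩
  rw [MM_toC p hpq.1.ne_zero]
  apply MM_alt
  rcases le_or_gt (mp (toC p)) 1 with h1 | h1
  · have h2 := interl_height hpq L hL
    obtain ⟨g1, g2⟩ := interl_gcd hpq
    rcases h p q hpq.1 g1 g2 (by linarith) with h3 | h3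
    · exact Or.inl h3
    · exact Or.inr ((min_le_left _ _).trans h3)
  · exact Or.inr ((min_le_right _ _).trans h1.le)

theorem fin_small (k : ℕ) : ∃ (N : ℕ) (μ : ℝ), 1 < μ ∧ ∀ (n : ℕ)
    (A : Matrix (Fin n × Fin k) (Fin n × Fin k) ℂ), A.IsHermitian →
    (∀ U : Finset (Fin n), ∃ P : ℤ[X], toC P = (blk A U).charpoly) →
    ∀ U : Finset (Fin n), MM (blk A U).charpoly ≠ 1 →
      ∃ V ⊆ U, V.card ≤ N ∧ μ ≤ MM (blk A V).charpoly := by
  obtain ⟨δ, N, hδ, h⟩ := size_bound_block k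
  refine ⟨N, Real.exp δ, Real.one_lt_exp_iff.mpr hδ, fun n A hA hI U hU => ?_⟩
  obtain ⟨h1, h2, h3⟩ := block_hyp hI
  rw [MM_charpoly (hI U), blk_charpoly] at hU
  have h4 : mp (cp A (pre Prod.fst U)) ≠ 0 := fun h0 => hU (by rw [h0, Real.exp_zero])
  obtain ⟨V, hV, h5, h6⟩ := h _ _ A Prod.fst hA h1 h2 U h4
  refine ⟨V, hV, h5, ?_⟩
  rw [MM_charpoly (hI V), blk_charpoly]
  exact Real.exp_le_exp.mpr h6

theorem fin_delete (k : ℕ) (B : ℝ) : ∃ s : ℕ, ∀ (n : ℕ)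
    (A : Matrix (Fin n × Fin k) (Fin n × Fin k) ℂ), A.IsHermitian →
    (∀ U : Finset (Fin n), ∃ P : ℤ[X], toC P = (blk A U).charpoly) →
    MM A.charpoly ≤ B → ∃ S : Finset (Fin n), S.card ≤ s ∧ MM (blk A Sᶜ).charpoly = 1 := by
  obtain ⟨s, h⟩ := deletion_block k (Real.log (max B 1))
  refine ⟨s, fun n A hA hI hB => ?_⟩
  obtain ⟨h1, h2, h3⟩ := block_hyp hI
  rw [MM_charpoly h3] at hB
  have h4 : mp A.charpoly ≤ Real.log (max B 1) := by
    rw [Real.le_log_iff_exp_le (by positivity)]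
    exact hB.trans (le_max_left _ _)
  obtain ⟨S, hS, h5⟩ := h _ _ A Prod.fst hA h1 h2 h4
  refine ⟨S, hS, ?_⟩
  rw [MM_charpoly (hI _), blk_charpoly, Finset.compl_eq_univ_sdiff, h5, Real.exp_zero]

theorem embCard (K : Type) [Field K] [NumberField K] :
    Fintype.card (K →+* ℂ) = Module.finrank ℚ K := NumberField.Embeddings.card K ℂ

theorem fin_nf (d : ℕ) : ∃ μ : ℝ, 1 < μ ∧ ∀ (K : Type) [Field K] [NumberField K],
    Module.finrank ℚ K ≤ d → ∀ (n : ℕ) (A : Matrix (Fin n) (Fin n) (𝓞 K)),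
      (∀ σ : K →+* ℂ, (A.map (emb σ)).IsHermitian) →
      MM (∏ σ : K →+* ℂ, (A.map (emb σ)).charpoly) = 1 ∨
        μ ≤ MM (∏ σ : K →+* ℂ, (A.map (emb σ)).charpoly) := by
  classical
  obtain ⟨δ, N, hδ, h⟩ := size_bound_block d
  refine ⟨Real.exp δ, Real.one_lt_exp_iff.mpr hδ, fun K _ _ hd n A hA => ?_⟩
  obtain ⟨h1, h2, h3⟩ := bigM_facts K A hA
  have h4 : (∏ σ : K →+* ℂ, (A.map (emb σ)).charpoly) = (bigM K A).charpoly := by
    rw [h2]
    unfold normPoly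
    refine Finset.prod_congr rfl fun σ _ => ?_
    rw [charpoly_map]
  have hk : ∀ b, (pre (Prod.fst : Fin n × (K →+* ℂ) → Fin n) {b}).card ≤ d := by
    intro b
    have h5 := pre_fst_card (E := K →+* ℂ) b
    have h6 := embCard K
    refine le_trans (le_of_eq ?_) hd
    rw [← h6, ← h5]
  have h7 : ∃ P : ℤ[X], toC P = (bigM K A).charpoly := by
    obtain ⟨P, hP⟩ := normPoly_int K A.charpoly
    exact ⟨P, by rw [hP, h2]⟩
  rw [h4, MM_charpoly h7]
  apply MM_alt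
  by_cases h0 : mp (bigM K A).charpoly = 0
  · exact Or.inl h0
  · right
    have h8 : mp (cp (bigM K A) (pre (Prod.fst : Fin n × (K →+* ℂ) → Fin n) Finset.univ)) ≠ 0 := by
      rw [pre_univ, mp_univ]
      exact h0
    obtain ⟨V, hV, _, h9⟩ := h _ _ (bigM K A) Prod.fst h1 hk h3 Finset.univ h8
    have h10 := mp_mono h1 (pre_mono (Prod.fst : Fin n × (K →+* ℂ) → Fin n) hV)
    rw [pre_univ, mp_univ] at h10
    exact h9.trans h10

end

end Pool.Agent.W242.IM
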