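import Mathlib
import Pool.Agent.H25.MM.W242.IM.Final

/-!
# Final statements, II
-/

set_option autoImplicit false
set_option linter.unusedSectionVars false

namespace Pool.Agent.W242.IM

open MeasureTheory Polynomial Filter Matrix NumberField
open Pool.Agent.H261R2.CM

noncomputable section

/-- the set of all Mahler measures of integer polynomials in several variables -/
def allM : Set ℝ := {x : ℝ | ∃ k : ℕ, 1 ≤ k ∧ ∃ F : MvPolynomial (Fin k) ℤ, F ≠ 0 ∧ x = mM F}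

theorem LL_sub (K : ℝ) : LL K ⊆ allM := by
  rintro x ⟨k, hk, F, G, hF, _, _, _, hx⟩
  exact ⟨k, hk, F, hF, hx⟩

theorem closure_of_LL (T : Set ℝ) (h : ∀ B : ℝ, ∃ K : ℝ, T ∩ Set.Iio B ⊆ LL K) :
    closure T ⊆ allM ∧ ∀ B : ℝ, ∃ m : ℕ, ∀ x ∈ derivedSet^[m] T, B ≤ x := by
  constructor
  · intro x hx
    obtain ⟨K, hK⟩ := h (x + 1)
    have h1 : x ∈ closure (T ∩ Set.Iio (x + 1)) := by
      rw [mem_closure_iff_nhds] at hx ⊢
      intro t ht
      obtain ⟨y, hy1, hy2⟩ := hx (t ∩ Set.Iio (x + 1))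
        (Filter.inter_mem ht (Iio_mem_nhds (by linarith)))
      exact ⟨y, hy1.1, hy2, hy1.2⟩
    exact LL_sub K ((closed_LL K).closure_subset_iff.mpr hK h1)
  · intro B
    obtain ⟨K, hK⟩ := h B
    obtain ⟨m, hm⟩ := Pool.Agent.H887R3.LW.finite_rank K
    refine ⟨m, fun x hx => ?_⟩
    by_contra hlt
    push Not at hlt
    have h1 := Pool.Agent.H887R3.LW.iterate_derived_local T B m ⟨hx, hlt⟩
    have h3 := Pool.Agent.H887R3.LW.iterate_derived_mono hK m h1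
    rw [hm] at h3
    exact h3

theorem mp_le_of_exp {x B : ℝ} (h : Real.exp x < B) : x ≤ Real.log (max B 1) := by
  rw [Real.le_log_iff_exp_le (by positivity)]
  exact h.le.trans (le_max_left _ _)

/-- measures of block matrices -/
def TB (k : ℕ) : Set ℝ := {x : ℝ | ∃ (n : ℕ) (A : Matrix (Fin n × Fin k) (Fin n × Fin k) ℂ),
  A.IsHermitian ∧ (∀ U : Finset (Fin n), ∃ P : ℤ[X], toC P = (blk A U).charpoly) ∧
    x = MM A.charpoly}

theorem TB_LL (k : ℕ) (B : ℝ) : ∃ K : ℝ, TB k ∩ Set.Iio B ⊆ LL K := by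
  obtain ⟨K, hK⟩ := class_LL_block k (Real.log (max B 1))
  refine ⟨K, ?_⟩
  rintro x ⟨⟨n, A, hA, hI, rfl⟩, hx⟩
  obtain ⟨h1, h2, h3⟩ := block_hyp hI
  rw [MM_charpoly h3] at hx ⊢
  exact hK _ _ A Prod.fst hA h1 h2 (mp_le_of_exp hx)

/-- measures of norms of characteristic polynomials over number fields -/
def TN (d : ℕ) : Set ℝ := {x : ℝ | ∃ (K : Type) (_ : Field K) (_ : NumberField K),
  Module.finrank ℚ K ≤ d ∧ ∃ (n : ℕ) (A : Matrix (Fin n) (Fin n) (𝓞 K)),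
    (∀ σ : K →+* ℂ, (A.map (emb σ)).IsHermitian) ∧
      x = MM (∏ σ : K →+* ℂ, (A.map (emb σ)).charpoly)}

theorem TN_LL (d : ℕ) (B : ℝ) : ∃ K : ℝ, TN d ∩ Set.Iio B ⊆ LL K := by
  classical
  obtain ⟨C, hC⟩ := class_LL_block d (Real.log (max B 1))
  refine ⟨C, ?_⟩
  rintro x ⟨⟨K, _, _, hd, n, A, hA, rfl⟩, hx⟩
  obtain ⟨h1, h2, h3⟩ := bigM_facts K A hA
  have h4 : (∏ σ : K →+* ℂ, (A.map (emb σ)).charpoly) = (bigM K A).charpoly := by
    rw [h2]
    unfold normPoly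
    refine Finset.prod_congr rfl fun σ _ => ?_
    rw [charpoly_map]
  have hk : ∀ b, (pre (Prod.fst : Fin n × (K →+* ℂ) → Fin n) {b}).card ≤ d := by
    intro b
    have h5 := pre_fst_card (E := K →+* ℂ) b
    have h6 := embCard K
    refine le_trans (le_of_eq ?_) hd
    rw [← h6, ← h5]
  have h7 : ∃ P : ℤ[X], toC P = (bigM K A).charpoly := by
    obtain ⟨P, hP⟩ := normPoly_int K A.charpoly
    exact ⟨P, by rw [hP, h2]⟩
  rw [h4, MM_charpoly h7] at hx ⊢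
  exact hC _ _ (bigM K A) Prod.fst h1 hk h3 (mp_le_of_exp hx)

/-- measures of polynomials with an interlacing polynomial -/
def TI (L : ℕ) : Set ℝ := {x : ℝ | ∃ p q : ℤ[X], Interl p q ∧ q.coeff (p.natDegree - 1) ≤ L ∧
  x = MM (toC p)}

theorem TI_LL (L : ℕ) (B : ℝ) : ∃ K : ℝ, TI L ∩ Set.Iio B ⊆ LL K := by
  refine ⟨3 * Real.log (max B 1) + Real.log 2 + 2 * Real.log (2 + 2 * L), ?_⟩
  rintro x ⟨⟨p, q, hpq, hL, rfl⟩, hx⟩
  rw [MM_toC p hpq.1.ne_zero] at hx ⊢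
  have h1 := mp_le_of_exp hx
  have h2 := interl_height hpq L hL
  obtain ⟨g1, g2⟩ := interl_gcd hpq
  exact pair_LL p q hpq.1 g1 g2 _ (by linarith)

/-- measures of Hermitian matrices with few rows whose deletion destroys the noncyclotomic
factors -/
def TD (s : ℕ) : Set ℝ := {x : ℝ | ∃ (n : ℕ) (A : Matrix (Fin n) (Fin n) ℂ), A.IsHermitian ∧
  ∃ (S : Finset (Fin n)) (p q : ℤ[X]), S.card ≤ s ∧ toC p = A.charpoly ∧
    toC q = (A.submatrix (Subtype.val : (Sᶜ : Finset (Fin n)) → Fin n) Subtype.val).charpoly ∧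
    (∀ d : ℤ[X], d ∣ p → d ∣ q → MM (toC d) = 1) ∧ x = MM A.charpoly}

theorem TD_LL (s : ℕ) (B : ℝ) : ∃ K : ℝ, TD s ∩ Set.Iio B ⊆ LL K := by
  refine ⟨Real.log (max B 1) + s * (2 * Real.log (max B 1) + 5 * Real.log 2), ?_⟩
  rintro x ⟨⟨n, A, hA, S, p, q, hS, hp1, hq1, hd, rfl⟩, hx⟩
  have h3 : ∃ P : ℤ[X], toC P = A.charpoly := ⟨p, hp1⟩
  rw [MM_charpoly h3] at hx ⊢
  refine deleted_LL s _ (Fin n) A hA S hS p q hp1 ?_ ?_ (mp_le_of_exp hx)
  · rw [hq1, ← Finset.compl_eq_univ_sdiff]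
    rfl
  · intro d h1 h2
    have hd0 : d ≠ 0 := by
      rintro rfl
      exact toC_charpoly_ne hp1 (zero_dvd_iff.mp h1)
    have h4 := hd d h1 h2
    rw [MM_toC d hd0] at h4
    exact (Real.exp_eq_one_iff _).mp h4

end

end Pool.Agent.W242.IM
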